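import Pool.Agent.Helper84_LPK.LOW
import Pool.Agent.Helper66_LPK.BAS

/-!
# Squad LPK (MP_37fa12_co): the minimum of the dual lattice

If the lattices of `ℝ^n` with distances at least `2` have at most `D` points per unit of volume, then the
dual of a lattice of `ℝ^(n+1)` with the norms at least `μ` has no short vectors (Mordell's argument: the section
orthogonal to a dual vector `u` has covolume at most `|u| / (2π)` times the covolume).
-/

set_option autoImplicit false

noncomputable section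

open MeasureTheory Filter Topology
open scoped RealInnerProductSpace ENNReal

namespace Pool.Agent.LPK.H84

theorem pt_add {n : ℕ} {m : ℕ} (b : Fin m → V n) (a a' : Fin m → ℤ) :
    (∑ i, ((a + a') i : ℝ) • b i) = (∑ i, (a i : ℝ) • b i) + ∑ i, (a' i : ℝ) • b i := by
  simp [add_smul, Finset.sum_add_distrib]

/-- the part orthogonal to `u` -/
def x2 {n : ℕ} (u x : V (n + 1)) : V (n + 1) := x - (⟪u, x⟫ / ‖u‖ ^ 2) • u

theorem x2_mem {n : ℕ} {u : V (n + 1)} (hu : u ≠ 0) (x : V (n + 1)) : x2 u x ∈ (ℝ ∙ u)ᗮ := by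
  rw [Submodule.mem_orthogonal_singleton_iff_inner_right]
  unfold x2
  rw [inner_sub_right, inner_smul_right, real_inner_self_eq_norm_sq]
  have : ‖u‖ ^ 2 ≠ 0 := pow_ne_zero 2 (norm_ne_zero_iff.2 hu)
  field_simp
  ring

instance fct (n : ℕ) : Fact (Module.finrank ℝ (V (n + 1)) = n + 1) := ⟨finrank_euclideanSpace_fin⟩

/-- the isometry -/
def iso {n : ℕ} {u : V (n + 1)} (hu : u ≠ 0) : (ℝ ∙ u)ᗮ ≃ₗᵢ[ℝ] V n :=
  (OrthonormalBasis.fromOrthogonalSpanSingleton (𝕜 := ℝ) n hu).repr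

/-- the projection to `ℝ^n` -/
def P {n : ℕ} {u : V (n + 1)} (hu : u ≠ 0) : V (n + 1) →ₗ[ℝ] V n where
  toFun x := iso hu ⟨x2 u x, x2_mem hu x⟩
  map_add' x y := by
    rw [← map_add]
    congr 1
    ext1
    show x2 u (x + y) = x2 u x + x2 u y
    unfold x2
    rw [inner_add_right, add_div, add_smul]
    abel
  map_smul' t x := by
    rw [RingHom.id_apply, ← map_smul]
    congr 1
    ext1
    show x2 u (t • x) = t • x2 u x
    unfold x2
    rw [inner_smul_right, smul_sub, smul_smul, mul_div_assoc]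

theorem P_inner {n : ℕ} {u : V (n + 1)} (hu : u ≠ 0) (x y : V (n + 1)) :
    ⟪x, y⟫ = ⟪u, x⟫ / ‖u‖ * (⟪u, y⟫ / ‖u‖) + ⟪P hu x, P hu y⟫ := by
  have h1 : ⟪P hu x, P hu y⟫ = ⟪x2 u x, x2 u y⟫ := by
    show ⟪iso hu _, iso hu _⟫ = _
    rw [LinearIsometryEquiv.inner_map_map]
    rfl
  have hu' : ‖u‖ ≠ 0 := norm_ne_zero_iff.2 hu
  rw [h1]
  unfold x2
  rw [inner_sub_left, inner_sub_right, inner_sub_right, inner_smul_left, inner_smul_right,
    inner_smul_right, inner_smul_left, real_inner_self_eq_norm_sq, real_inner_comm u x]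
  simp only [conj_trivial]
  field_simp
  ring

/-- the coordinates -/
def T {n : ℕ} {u : V (n + 1)} (hu : u ≠ 0) (x : V (n + 1)) : Fin (n + 1) → ℝ :=
  Fin.cons (⟪u, x⟫ / ‖u‖) (fun j => P hu x j)

theorem T_inner {n : ℕ} {u : V (n + 1)} (hu : u ≠ 0) (x y : V (n + 1)) :
    ⟪x, y⟫ = ∑ k, T hu x k * T hu y k := by
  rw [Fin.sum_univ_succ, P_inner hu x y]
  unfold T
  simp only [Fin.cons_zero, Fin.cons_succ]
  congr 1
  rw [PiLp.inner_apply]
  refine Finset.sum_congr rfl fun i _ => ?_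
  simp [mul_comm]

theorem det_sq {n : ℕ} {u : V (n + 1)} (hu : u ≠ 0) (b : Fin (n + 1) → V (n + 1)) :
    (Matrix.of fun i j => b i j).det ^ 2 = (Matrix.of fun i k => T hu (b i) k).det ^ 2 := by
  have h1 : (Matrix.of fun i j => b i j) * (Matrix.of fun i j => b i j).transpose =
      (Matrix.of fun i k => T hu (b i) k) * (Matrix.of fun i k => T hu (b i) k).transpose := by
    ext i j
    rw [Matrix.mul_apply, Matrix.mul_apply]
    simp only [Matrix.transpose_apply, Matrix.of_apply]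
    rw [← T_inner hu, PiLp.inner_apply]
    refine Finset.sum_congr rfl fun k _ => ?_
    simp [mul_comm]
  have h2 := congrArg Matrix.det h1
  rw [Matrix.det_mul, Matrix.det_mul, Matrix.det_transpose, Matrix.det_transpose] at h2
  rw [sq, sq, h2]

/-- values of a linear form on `ℤ^m` -/
theorem gcd_ex {m : ℕ} (c : Fin m → ℤ) (hc : c ≠ 0) : ∃ (g : ℤ) (z : Fin m → ℤ), g ≠ 0 ∧
    ∑ i, z i * c i = g ∧ ∀ i, g ∣ c i := by
  let φ : (Fin m → ℤ) →+ ℤ :=
    { toFun := fun a => ∑ i, a i * c i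
      map_zero' := by simp
      map_add' := fun a a' => by simp [add_mul, Finset.sum_add_distrib] }
  obtain ⟨g, hg⟩ := Int.subgroup_cyclic φ.range
  have h1 : ∀ a : Fin m → ℤ, g ∣ ∑ i, a i * c i := by
    intro a
    have h2 : φ a ∈ φ.range := ⟨a, rfl⟩
    rw [hg, AddSubgroup.mem_closure_singleton] at h2
    obtain ⟨k, hk⟩ := h2
    refine ⟨k, ?_⟩
    show φ a = _
    rw [← hk, smul_eq_mul, mul_comm]
  have h3 : g ∈ φ.range := by
    rw [hg]
    exact AddSubgroup.subset_closure rfl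
  obtain ⟨z, hz⟩ := h3
  have h4 : ∀ i, g ∣ c i := by
    intro i
    have h5 := h1 (Pi.single i 1)
    simpa [Pi.single_apply] using h5
  refine ⟨g, z, ?_, hz, h4⟩
  rintro rfl
  exact hc (funext fun i => zero_dvd_iff.1 (h4 i))

theorem inner_pt {n : ℕ} (b : Fin n → V n) (u : V n) (a : Fin n → ℤ) :
    ⟪u, pt b a⟫ = ∑ i, (a i : ℝ) * ⟪u, b i⟫ := by
  unfold pt
  rw [inner_sum]
  refine Finset.sum_congr rfl fun i _ => ?_
  rw [inner_smul_right]

theorem inner_du {n : ℕ} {κ : ℝ} {b b' : Fin n → V n} (h : Du κ b b') (c : Fin n → ℤ) (i : Fin n) :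
    ⟪pt b' c, b i⟫ = 2 * Real.pi * c i := by
  rw [real_inner_comm, inner_pt b' (b i) c]
  rw [Finset.sum_eq_single i]
  · rw [h.dual, if_pos rfl]
    ring
  · intro j _ hj
    rw [h.dual, if_neg (fun e => hj e.symm), mul_zero]
  · simp

/-- **DMN** -/
theorem dmn (n : ℕ) (hn : 1 ≤ n) (D : ℝ) (hD : 0 < D)
    (H : ∀ M : AddSubgroup (V n), (M : Set (V n)).Pairwise (fun x y => 2 ≤ dist x y) →
      Filter.limsup (fun R : ℝ => volume ((⋃ x ∈ (M : Set (V n)), Metric.ball x 1) ∩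
        Metric.ball (0 : V n) R) / volume (Metric.ball (0 : V n) R)) atTop ≤
        ENNReal.ofReal D * volume (Metric.ball (0 : V n) 1))
    (κ μ : ℝ) (hμ : 0 < μ) (b b' : Fin (n + 1) → V (n + 1)) (hdu : Du κ b b') (hmu : Mu μ b) :
    Mu ((μ / 4) ^ n * (2 * Real.pi) ^ 2 / (D ^ 2 * (κ ^ 2 * (2 * Real.pi) ^ (n + 1)))) b' := by
  intro c hc
  set u : V (n + 1) := pt b' c with hu0
  have hπ : (0 : ℝ) < 2 * Real.pi := by positivity
  have hub : ∀ i, ⟪u, b i⟫ = 2 * Real.pi * c i := inner_du hdu c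
  have hbdet : (Matrix.of fun i j => b i j).det ≠ 0 := by
    intro h
    have h1 := hdu.vol
    rw [h] at h1
    have h2 : (0 : ℝ) < κ ^ 2 * (2 * Real.pi) ^ (n + 1) := by
      have := hdu.pos
      positivity
    rw [← h1] at h2
    norm_num at h2
  obtain ⟨j0, hj0⟩ : ∃ j, c j ≠ 0 := by
    by_contra h
    push Not at h
    exact hc (funext h)
  have hu : u ≠ 0 := by
    intro h
    have h1 := hub j0
    rw [h, inner_zero_left] at h1
    have h2 : (c j0 : ℝ) ≠ 0 := by exact_mod_cast hj0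
    exact (mul_ne_zero hπ.ne' h2) h1.symm
  have hun : 0 < ‖u‖ := norm_pos_iff.2 hu
  have hup : ∀ a : Fin (n + 1) → ℤ, ⟪u, pt b a⟫ = 2 * Real.pi * ((∑ i, a i * c i : ℤ) : ℝ) := by
    intro a
    rw [inner_pt]
    push_cast
    rw [Finset.mul_sum]
    refine Finset.sum_congr rfl fun i _ => ?_
    rw [hub]
    ring
  have ptadd : ∀ a a' : Fin (n + 1) → ℤ, pt b (a + a') = pt b a + pt b a' := fun a a' => pt_add b a a'
  have ptneg : ∀ a : Fin (n + 1) → ℤ, pt b (-a) = -pt b a := by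
    intro a
    unfold pt
    simp
  have ptz : pt b (0 : Fin (n + 1) → ℤ) = 0 := by
    unfold pt
    simp
  set s : ℝ := 2 / √μ with hs
  have hsμ : 0 < √μ := Real.sqrt_pos.2 hμ
  have hs0 : 0 < s := by positivity
  -- the section
  let M : AddSubgroup (V n) :=
    { carrier := {v | ∃ a : Fin (n + 1) → ℤ, ∑ i, a i * c i = 0 ∧ v = s • P hu (pt b a)}
      zero_mem' := ⟨0, by simp, by rw [ptz, map_zero, smul_zero]⟩
      add_mem' := by
        rintro _ _ ⟨a, ha, rfl⟩ ⟨a', ha', rfl⟩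
        refine ⟨a + a', ?_, ?_⟩
        · simp only [Pi.add_apply, add_mul, Finset.sum_add_distrib, ha, ha', add_zero]
        · rw [ptadd, map_add, smul_add]
      neg_mem' := by
        rintro _ ⟨a, ha, rfl⟩
        refine ⟨-a, ?_, ?_⟩
        · simp only [Pi.neg_apply, neg_mul, Finset.sum_neg_distrib, ha, neg_zero]
        · rw [ptneg, map_neg, smul_neg] }
  have hM : ∀ v : V n, v ∈ M ↔ ∃ a : Fin (n + 1) → ℤ, ∑ i, a i * c i = 0 ∧ v = s • P hu (pt b a) :=
    fun v => Iff.rfl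
  -- norms
  have hnorm : ∀ a : Fin (n + 1) → ℤ, ∑ i, a i * c i = 0 → ‖P hu (pt b a)‖ ^ 2 = ‖pt b a‖ ^ 2 := by
    intro a ha
    have h1 := P_inner hu (pt b a) (pt b a)
    rw [hup a, ha] at h1
    simp only [Int.cast_zero, mul_zero, zero_div, zero_add] at h1
    rw [real_inner_self_eq_norm_sq, real_inner_self_eq_norm_sq] at h1
    exact h1.symm
  have hMd : (M : Set (V n)).Pairwise (fun x y => 2 ≤ dist x y) := by
    intro v hv w hw hvw
    have h1 : v - w ∈ M := M.sub_mem hv hw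
    obtain ⟨a, ha, hva⟩ := (hM _).1 h1
    have ha0 : a ≠ 0 := by
      rintro rfl
      rw [ptz, map_zero, smul_zero] at hva
      exact hvw (sub_eq_zero.1 hva)
    have h2 := hmu a ha0
    rw [dist_eq_norm, hva, norm_smul, Real.norm_of_nonneg hs0.le]
    have h3 : √μ ≤ ‖P hu (pt b a)‖ := by
      rw [← Real.sqrt_sq (norm_nonneg (P hu (pt b a))), hnorm a ha]
      exact Real.sqrt_le_sqrt h2
    calc (2 : ℝ) = s * √μ := by rw [hs]; field_simp
      _ ≤ s * ‖P hu (pt b a)‖ := mul_le_mul_of_nonneg_left h3 hs0.le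
  have hMs : Submodule.span ℝ (M : Set (V n)) = ⊤ := by
    rw [← Submodule.orthogonal_eq_bot_iff, Submodule.eq_bot_iff]
    intro w hw
    rw [Submodule.mem_orthogonal] at hw
    set x0 : V (n + 1) := ((iso hu).symm w : V (n + 1)) with hx0
    have hx0u : ⟪u, x0⟫ = 0 := by
      have h1 := ((iso hu).symm w).2
      rw [Submodule.mem_orthogonal_singleton_iff_inner_right] at h1
      exact h1
    have hPx0 : P hu x0 = w := by
      show iso hu ⟨x2 u x0, x2_mem hu x0⟩ = w
      have h1 : (⟨x2 u x0, x2_mem hu x0⟩ : (ℝ ∙ u)ᗮ) = (iso hu).symm w := by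
        ext1
        show x2 u x0 = x0
        unfold x2
        rw [hx0u]
        simp
      rw [h1, LinearIsometryEquiv.apply_symm_apply]
    have h0 : ∀ a : Fin (n + 1) → ℤ, ∑ i, a i * c i = 0 → ⟪x0, pt b a⟫ = 0 := by
      intro a ha
      have h1 := hw _ (Submodule.subset_span ((hM _).2 ⟨a, ha, rfl⟩))
      rw [inner_smul_left] at h1
      have h2 : ⟪P hu (pt b a), w⟫ = 0 := by
        rcases mul_eq_zero.1 h1 with h | h
        · exact absurd h (by simpa using hs0.ne')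
        · exact h
      have h3 : ⟪w, P hu (pt b a)⟫ = 0 := by
        rw [real_inner_comm]
        exact h2
      rw [P_inner hu x0 (pt b a), hx0u, hPx0, h3]
      simp
    have h1 : ∀ i, (c j0 : ℝ) * ⟪x0, b i⟫ = (c i : ℝ) * ⟪x0, b j0⟫ := by
      intro i
      have h2 := h0 (Pi.single i (c j0) - Pi.single j0 (c i)) (by
        simp only [Pi.sub_apply, sub_mul, Finset.sum_sub_distrib, Pi.single_apply, ite_mul, zero_mul,
          Finset.sum_ite_eq', Finset.mem_univ, if_true]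
        ring)
      rw [inner_pt] at h2
      simp only [Pi.sub_apply, Int.cast_sub, sub_mul, Finset.sum_sub_distrib, Pi.single_apply,
        Int.cast_ite, Int.cast_zero, ite_mul, zero_mul, Finset.sum_ite_eq', Finset.mem_univ,
        if_true] at h2
      linarith
    have hc0 : (c j0 : ℝ) ≠ 0 := by exact_mod_cast hj0
    set t : ℝ := ⟪x0, b j0⟫ / c j0 / (2 * Real.pi) with ht
    have h2 : ∀ i, ⟪x0 - t • u, b i⟫ = 0 := by
      intro i
      rw [inner_sub_left, inner_smul_left, hub]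
      have h3 : ⟪x0, b i⟫ = (c i : ℝ) * ⟪x0, b j0⟫ / c j0 := by
        rw [eq_div_iff hc0, mul_comm, h1]
      rw [h3, ht]
      simp only [conj_trivial]
      field_simp
      ring
    have h3 : x0 - t • u = 0 := by
      have h4 : ∀ y : V (n + 1), ⟪x0 - t • u, y⟫ = 0 := by
        intro y
        rw [← (bas0 b hbdet).sum_repr y, inner_sum]
        refine Finset.sum_eq_zero fun i _ => ?_
        rw [inner_smul_right, bas0_apply, h2, mul_zero]
      exact inner_self_eq_zero.1 (h4 _)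
    have h5 : t = 0 := by
      have h6 : ⟪u, x0 - t • u⟫ = 0 := by rw [h3, inner_zero_right]
      rw [inner_sub_right, hx0u, inner_smul_right, real_inner_self_eq_norm_sq] at h6
      have h7 : t * ‖u‖ ^ 2 = 0 := by linarith
      rcases mul_eq_zero.1 h7 with h | h
      · exact h
      · exact absurd h (pow_ne_zero 2 hun.ne')
    have h8 : x0 = 0 := by
      rw [h5, zero_smul, sub_zero] at h3
      exact h3
    rw [← hPx0, h8, map_zero]
  obtain ⟨m, hm1, hm2, -⟩ := H66.bas n M hn hMd hMs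
  have hlow := (low n M m hMd hm1 hm2).trans (H M hMd)
  have hvb0 : volume (Metric.ball (0 : V n) 1) ≠ 0 := (Metric.measure_ball_pos volume (0 : V n) one_pos).ne'
  have hvbt : volume (Metric.ball (0 : V n) 1) ≠ ⊤ := measure_ball_lt_top.ne
  have hdm : 1 / |(Matrix.of fun i j => m i j).det| ≤ D := by
    have h1 := (ENNReal.mul_le_mul_iff_left hvb0 hvbt).1 hlow
    exact (ENNReal.ofReal_le_ofReal_iff hD.le).1 h1
  -- the determinant
  obtain ⟨g, z, hg0, hz, hgc⟩ := gcd_ex c hc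
  choose k hk using hgc
  have hx : ∀ i, ∃ A : Fin n → ℤ, P hu (b i) = (k i : ℝ) • P hu (pt b z) + s⁻¹ • pt m A := by
    intro i
    have h1 : s • P hu (pt b (Pi.single i 1 - k i • z)) ∈ M := by
      refine (hM _).2 ⟨_, ?_, rfl⟩
      simp only [Pi.sub_apply, sub_mul, Finset.sum_sub_distrib, Pi.single_apply, ite_mul, zero_mul,
          Finset.sum_ite_eq', Finset.mem_univ, if_true, Pi.smul_apply, smul_eq_mul, one_mul, mul_assoc]
      rw [← Finset.mul_sum, hz, hk i]
      ring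
    obtain ⟨A, hA⟩ := (hm1 _).1 h1
    refine ⟨A, ?_⟩
    rw [← hA, smul_smul, inv_mul_cancel₀ hs0.ne', one_smul]
    have h2 : pt b (Pi.single i 1 - k i • z) = b i - (k i : ℝ) • pt b z := by
      unfold pt
      simp only [Pi.sub_apply, Int.cast_sub, sub_smul, Finset.sum_sub_distrib, Pi.single_apply,
        Int.cast_ite, Int.cast_one, Int.cast_zero, ite_smul, one_smul, zero_smul,
        Finset.sum_ite_eq', Finset.mem_univ, if_true, Pi.smul_apply, smul_eq_mul, Int.cast_mul,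
        mul_smul, Finset.smul_sum]
    rw [h2, map_sub, map_smul]
    abel
  choose A hA using hx
  let N : Matrix (Fin (n + 1)) (Fin (n + 1)) ℤ := Matrix.of fun i => Fin.cons (k i) (A i)
  let S : Matrix (Fin (n + 1)) (Fin (n + 1)) ℝ := Matrix.of fun i =>
    Fin.cases (T hu (pt b z)) (fun l => Fin.cons 0 (fun j => s⁻¹ * m l j)) i
  have hNS : (Matrix.of fun i k => T hu (b i) k) = N.map (Int.cast : ℤ → ℝ) * S := by
    ext i j
    rw [Matrix.mul_apply, Fin.sum_univ_succ]
    refine Fin.cases ?_ (fun j => ?_) j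
    · simp only [Matrix.of_apply, T, N, S, Matrix.map_apply, Fin.cons_zero, Fin.cons_succ,
        Fin.cases_zero, Fin.cases_succ, mul_zero, Finset.sum_const_zero, add_zero]
      rw [hub, hup, hz, hk i]
      push_cast
      ring
    · simp only [Matrix.of_apply, T, N, S, Matrix.map_apply, Fin.cons_zero, Fin.cons_succ,
        Fin.cases_zero, Fin.cases_succ]
      rw [hA i]
      simp only [PiLp.add_apply, PiLp.smul_apply, smul_eq_mul]
      congr 1
      rw [pt_apply, Finset.mul_sum]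
      refine Finset.sum_congr rfl fun l _ => ?_
      ring
  have hS : S.det = 2 * Real.pi * g / ‖u‖ * (s⁻¹ ^ n * (Matrix.of fun i j => m i j).det) := by
    rw [Matrix.det_succ_column_zero, Fin.sum_univ_succ]
    have h1 : ∀ i : Fin n, S i.succ 0 = 0 := fun i => rfl
    have h2 : S 0 0 = 2 * Real.pi * g / ‖u‖ := by
      show ⟪u, pt b z⟫ / ‖u‖ = _
      rw [hup, hz]
    have h3 : S.submatrix (Fin.succAbove 0) Fin.succ = s⁻¹ • (Matrix.of fun i j => m i j) := by
      ext i j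
      rw [Matrix.submatrix_apply, Fin.succAbove_zero]
      rfl
    rw [h2, h3, Matrix.det_smul, Fintype.card_fin]
    simp only [h1, mul_zero, zero_mul, Finset.sum_const_zero, add_zero, Fin.val_zero, pow_zero,
      one_mul]
  have hdd := det_sq hu b
  rw [hdu.vol, hNS, Matrix.det_mul, hS] at hdd
  have hNi : (N.map (Int.cast : ℤ → ℝ)).det = (N.det : ℝ) := (Int.cast_det N).symm
  rw [hNi] at hdd
  have hvpos : (0 : ℝ) < κ ^ 2 * (2 * Real.pi) ^ (n + 1) := by
    have := hdu.pos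
    positivity
  have hN0 : N.det ≠ 0 := by
    intro h
    rw [h] at hdd
    rw [hdd] at hvpos
    norm_num at hvpos
  have hN1 : (1 : ℝ) ≤ (N.det : ℝ) ^ 2 := by
    have h1 : (1 : ℤ) ≤ N.det ^ 2 := by
      have := pow_pos (abs_pos.2 hN0) 2
      rw [sq_abs] at this
      omega
    exact_mod_cast h1
  have hg1 : (1 : ℝ) ≤ (g : ℝ) ^ 2 := by
    have h1 : (1 : ℤ) ≤ g ^ 2 := by
      have := pow_pos (abs_pos.2 hg0) 2
      rw [sq_abs] at this
      omega
    exact_mod_cast h1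
  have hm3 : 1 ≤ D ^ 2 * (Matrix.of fun i j => m i j).det ^ 2 := by
    have h1 : 0 < |(Matrix.of fun i j => m i j).det| := abs_pos.2 hm2
    have h2 : 1 ≤ D * |(Matrix.of fun i j => m i j).det| := by
      rwa [div_le_iff₀ h1] at hdm
    have h3 := pow_le_pow_left₀ zero_le_one h2 2
    rwa [one_pow, mul_pow, sq_abs] at h3
  have hss : s⁻¹ ^ 2 = μ / 4 := by
    rw [hs, inv_div, div_pow, Real.sq_sqrt hμ.le]
    norm_num
  rw [div_le_iff₀ (by positivity)]
  have e1 : ‖u‖ ^ 2 * (D ^ 2 * (κ ^ 2 * (2 * Real.pi) ^ (n + 1))) =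
      (N.det : ℝ) ^ 2 * (g : ℝ) ^ 2 * (D ^ 2 * (Matrix.of fun i j => m i j).det ^ 2) *
        ((μ / 4) ^ n * (2 * Real.pi) ^ 2) := by
    have h8 : (μ / 4) ^ n = (s⁻¹ ^ n) ^ 2 := by
      rw [← hss, ← pow_mul, ← pow_mul, mul_comm]
    rw [hdd, h8]
    generalize s⁻¹ ^ n = y
    field_simp
  rw [e1]
  have h5 : (0 : ℝ) < (μ / 4) ^ n * (2 * Real.pi) ^ 2 := by positivity
  have h6 : (1 : ℝ) ≤ (N.det : ℝ) ^ 2 * (g : ℝ) ^ 2 * (D ^ 2 * (Matrix.of fun i j => m i j).det ^ 2) := by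
    have h7 : (1 : ℝ) ≤ (N.det : ℝ) ^ 2 * (g : ℝ) ^ 2 := by nlinarith
    nlinarith
  nlinarith

end Pool.Agent.LPK.H84
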