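import Pool.Agent.LPK.Stmts

/-!
# Squad LPK (MP_37fa12_co): the density of a lattice packing is at least `vol B₁ / covolume`
-/

set_option autoImplicit false

noncomputable section

open MeasureTheory Filter Topology
open scoped RealInnerProductSpace ENNReal Pointwise

namespace Pool.Agent.LPK.H84

/-- coordinates of a point -/
theorem pt_apply {n : ℕ} (c : Fin n → V n) (a : Fin n → ℤ) (j : Fin n) :
    pt c a j = ∑ i, (a i : ℝ) * c i j := by
  unfold pt
  simp

/-- rows of a matrix with nonzero determinant are linearly independent -/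
theorem linInd {n : ℕ} (c : Fin n → V n) (h0 : (Matrix.of fun i j => c i j).det ≠ 0) :
    LinearIndependent ℝ c := by
  rw [Fintype.linearIndependent_iff]
  intro g hg
  have h1 : Matrix.vecMul g (Matrix.of fun i j => c i j) = 0 := by
    funext j
    have h2 := congrArg (fun v : V n => v j) hg
    simpa [Matrix.vecMul, dotProduct] using h2
  have h3 := Matrix.eq_zero_of_vecMul_eq_zero h0 h1
  intro i
  exact congrFun h3 i

/-- the basis -/
def bas0 {n : ℕ} (c : Fin n → V n) (h0 : (Matrix.of fun i j => c i j).det ≠ 0) :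
    Module.Basis (Fin n) ℝ (V n) :=
  basisOfLinearIndependentOfCardEqFinrank' c (linInd c h0) (by simp)

theorem bas0_apply {n : ℕ} (c : Fin n → V n) (h0 : (Matrix.of fun i j => c i j).det ≠ 0) (i : Fin n) :
    bas0 c h0 i = c i := by
  unfold bas0
  simp

theorem pt_inj {n : ℕ} (c : Fin n → V n) (h0 : (Matrix.of fun i j => c i j).det ≠ 0)
    {a a' : Fin n → ℤ} (h : pt c a = pt c a') : a = a' := by
  have h1 := linInd c h0
  rw [Fintype.linearIndependent_iff] at h1
  have h2 : ∑ i, ((a i : ℝ) - a' i) • c i = 0 := by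
    simp only [sub_smul, Finset.sum_sub_distrib]
    exact sub_eq_zero.2 h
  funext i
  have h3 := h1 _ h2 i
  have h4 : (a i : ℝ) = a' i := by linarith
  exact_mod_cast h4

/-- **the density is at least `vol B₁ / |det c|`** -/
theorem low (n : ℕ) (L : AddSubgroup (V n)) (c : Fin n → V n)
    (hd : (L : Set (V n)).Pairwise (fun x y => 2 ≤ dist x y))
    (hL : ∀ v : V n, v ∈ L ↔ ∃ a : Fin n → ℤ, v = pt c a)
    (h0 : (Matrix.of fun i j => c i j).det ≠ 0) :
    ENNReal.ofReal (1 / |(Matrix.of fun i j => c i j).det|) * volume (Metric.ball (0 : V n) 1) ≤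
    Filter.limsup (fun R : ℝ => volume ((⋃ x ∈ (L : Set (V n)), Metric.ball x 1) ∩
      Metric.ball (0 : V n) R) / volume (Metric.ball (0 : V n) R)) atTop := by
  let B : Module.Basis (Fin n) ℝ (V n) := bas0 c h0
  have hB : ∀ i, B i = c i := bas0_apply c h0
  let E : OrthonormalBasis (Fin n) ℝ (V n) := EuclideanSpace.basisFun (Fin n) ℝ
  have hdet : E.toBasis.det B = (Matrix.of fun i j => c i j).det := by
    rw [Module.Basis.det_apply, ← Matrix.det_transpose]
    congr 1
    ext i j
    simp [Module.Basis.toMatrix_apply, hB, E]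
  set F : Set (V n) := ZSpan.fundamentalDomain B with hF
  have hvol : volume F = ENNReal.ofReal |(Matrix.of fun i j => c i j).det| := by
    rw [hF, ZSpan.measure_fundamentalDomain B volume E.toBasis, hdet,
      measure_congr (ZSpan.fundamentalDomain_ae_parallelepiped E.toBasis volume),
      OrthonormalBasis.coe_toBasis, E.volume_parallelepiped, mul_one]
  set δ : ℝ≥0∞ := ENNReal.ofReal |(Matrix.of fun i j => c i j).det| with hδ
  have hδ0 : δ ≠ 0 := by
    rw [hδ, Ne, ENNReal.ofReal_eq_zero, not_le]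
    exact abs_pos.2 h0
  have hδt : δ ≠ ⊤ := ENNReal.ofReal_ne_top
  obtain ⟨D, hD, hFD⟩ : ∃ D : ℝ, 0 < D ∧ F ⊆ Metric.ball (0 : V n) D := by
    obtain ⟨D, hD⟩ := (ZSpan.fundamentalDomain_isBounded B).subset_ball 0
    exact ⟨max D 1, lt_max_of_lt_right one_pos, hD.trans (Metric.ball_subset_ball (le_max_left _ _))⟩
  set V1 : ℝ≥0∞ := volume (Metric.ball (0 : V n) 1) with hV1
  have hV0 : V1 ≠ 0 := (Metric.measure_ball_pos volume (0 : V n) one_pos).ne'
  have hVt : V1 ≠ ⊤ := measure_ball_lt_top.ne
  -- the volume of the union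
  have key : ∀ R : ℝ, V1 * (δ⁻¹ * volume (Metric.ball (0 : V n) (R - 1 - D))) ≤
      volume ((⋃ x ∈ (L : Set (V n)), Metric.ball x 1) ∩ Metric.ball (0 : V n) R) := by
    intro R
    let I : Type := {a : Fin n → ℤ // ‖pt c a‖ < R - 1}
    have s1 : (⋃ g : I, Metric.ball (pt c g.1) 1) ⊆
        (⋃ x ∈ (L : Set (V n)), Metric.ball x 1) ∩ Metric.ball (0 : V n) R := by
      intro y hy
      simp only [Set.mem_iUnion] at hy
      obtain ⟨g, hg⟩ := hy
      refine ⟨?_, ?_⟩
      · simp only [Set.mem_iUnion]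
        exact ⟨pt c g.1, (hL _).2 ⟨g.1, rfl⟩, hg⟩
      · rw [mem_ball_zero_iff]
        rw [Metric.mem_ball, dist_eq_norm] at hg
        have h1 := norm_add_le (y - pt c g.1) (pt c g.1)
        rw [sub_add_cancel] at h1
        have h2 := g.2
        linarith
    have s2 : volume (⋃ g : I, Metric.ball (pt c g.1) 1) = ∑' _ : I, V1 := by
      rw [measure_iUnion]
      · refine tsum_congr fun g => ?_
        exact Measure.addHaar_ball_center volume _ 1
      · intro g g' hg
        have h1 : pt c g.1 ≠ pt c g'.1 := fun h => hg (Subtype.ext (pt_inj c h0 h))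
        have h2 := hd ((hL _).2 ⟨g.1, rfl⟩) ((hL _).2 ⟨g'.1, rfl⟩) h1
        refine Metric.ball_disjoint_ball ?_
        linarith
      · intro g
        exact Metric.isOpen_ball.measurableSet
    have s3 : volume (Metric.ball (0 : V n) (R - 1 - D)) ≤ ∑' _ : I, δ := by
      have e1 : ∑' _ : I, δ = ∑' g : I, volume ((pt c g.1) +ᵥ F) := by
        refine tsum_congr fun g => ?_
        rw [measure_vadd, ← hvol]
      rw [e1]
      refine (measure_mono ?_).trans (measure_iUnion_le _)
      intro y hy
      rw [mem_ball_zero_iff] at hy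
      set a : Fin n → ℤ := fun i => ⌊B.repr y i⌋ with ha
      have h1 : pt c a = (ZSpan.floor B y : V n) := by
        unfold pt
        simp only [ZSpan.floor, ha]
        simp only [Submodule.coe_sum, Submodule.coe_smul]
        refine Finset.sum_congr rfl fun i _ => ?_
        simp [hB, Int.cast_smul_eq_zsmul]
      have h2 : y - pt c a ∈ F := by
        rw [h1, ← ZSpan.fract_apply]
        exact ZSpan.fract_mem_fundamentalDomain B y
      have h3 := hFD h2
      rw [mem_ball_zero_iff] at h3
      have h4 : ‖pt c a‖ < R - 1 := by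
        have h5 := norm_sub_le y (y - pt c a)
        rw [sub_sub_cancel] at h5
        linarith
      simp only [Set.mem_iUnion]
      refine ⟨⟨a, h4⟩, ?_⟩
      rw [Set.mem_vadd_set]
      exact ⟨y - pt c a, h2, by simp⟩
    have e2 : ∑' _ : I, V1 = V1 * ∑' _ : I, (1 : ℝ≥0∞) := by
      rw [← ENNReal.tsum_mul_left]
      simp
    have e3 : ∑' _ : I, δ = δ * ∑' _ : I, (1 : ℝ≥0∞) := by
      rw [← ENNReal.tsum_mul_left]
      simp
    refine le_trans ?_ ((le_of_eq s2.symm).trans (measure_mono s1))
    rw [e2]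
    gcongr
    rw [← ENNReal.div_eq_inv_mul]
    refine ENNReal.div_le_of_le_mul ?_
    rw [mul_comm, ← e3]
    exact s3
  -- the quotient
  have hq : ∀ R : ℝ, 1 + D < R → volume (Metric.ball (0 : V n) (R - 1 - D)) /
      volume (Metric.ball (0 : V n) R) = ENNReal.ofReal (((R - 1 - D) / R) ^ n) := by
    intro R hR
    have hR' : 0 < R := by linarith
    rw [Measure.addHaar_ball_of_pos volume 0 (show 0 < R - 1 - D by linarith),
      Measure.addHaar_ball_of_pos volume 0 hR', finrank_euclideanSpace_fin,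
      ENNReal.mul_div_mul_right _ _ hV0 hVt, div_pow, ENNReal.ofReal_div_of_pos (by positivity)]
  have hlim : Tendsto (fun R : ℝ => V1 * δ⁻¹ * ENNReal.ofReal (((R - 1 - D) / R) ^ n)) atTop
      (𝓝 (V1 * δ⁻¹ * 1)) := by
    refine ENNReal.Tendsto.const_mul ?_ (Or.inl one_ne_zero)
    rw [← ENNReal.ofReal_one]
    refine ENNReal.tendsto_ofReal ?_
    have h2 : Tendsto (fun R : ℝ => (1 - (1 + D) / R) ^ n) atTop (𝓝 ((1 - 0) ^ n)) :=
      (tendsto_const_nhds.sub (tendsto_const_nhds.div_atTop tendsto_id)).pow n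
    rw [sub_zero, one_pow] at h2
    refine h2.congr' ?_
    filter_upwards [eventually_gt_atTop (0 : ℝ)] with R hR
    congr 1
    field_simp
    ring
  have hle : Filter.limsup (fun R : ℝ => V1 * δ⁻¹ * ENNReal.ofReal (((R - 1 - D) / R) ^ n)) atTop ≤
      Filter.limsup (fun R : ℝ => volume ((⋃ x ∈ (L : Set (V n)), Metric.ball x 1) ∩
      Metric.ball (0 : V n) R) / volume (Metric.ball (0 : V n) R)) atTop := by
    refine Filter.limsup_le_limsup ?_
    filter_upwards [eventually_gt_atTop (1 + D : ℝ)] with R hR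
    rw [← hq R hR, mul_assoc, mul_div_assoc', mul_div_assoc']
    exact ENNReal.div_le_div_right (key R) _
  rw [hlim.limsup_eq, mul_one, mul_comm] at hle
  refine le_trans (le_of_eq ?_) hle
  rw [one_div, ENNReal.ofReal_inv_of_pos (abs_pos.2 h0)]

end Pool.Agent.LPK.H84
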