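import Pool.Agent.Helper84_LPK.DMN

/-!
# Squad LPK (MP_37fa12_co): the minimum of the dual lattice in `ℝ^22`
-/

set_option autoImplicit false

noncomputable section

open MeasureTheory Filter Topology
open scoped RealInnerProductSpace ENNReal

namespace Pool.Agent.LPK.H84

theorem gamma21 : Real.Gamma (((21 : ℕ) : ℝ) / 2 + 1) = (13749310575 : ℝ) * √Real.pi / 2 ^ 11 := by
  have : (((21 : ℕ) : ℝ) / 2 + 1) = ((10 : ℕ) : ℝ) + 1 + 1 / 2 := by norm_num
  rw [this, Real.Gamma_nat_add_one_add_half]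
  norm_num [Nat.doubleFactorial]

theorem vol21 : volume (Metric.ball (0 : V 21) 1) =
    ENNReal.ofReal (Real.pi ^ 10 * 2 ^ 11 / 13749310575) := by
  rw [EuclideanSpace.volume_ball]
  simp only [Fintype.card_fin, ENNReal.ofReal_one, one_pow, one_mul]
  congr 1
  rw [gamma21]
  have h1 : 0 < √Real.pi := Real.sqrt_pos.2 Real.pi_pos
  have h2 : √Real.pi ^ 21 = Real.pi ^ 10 * √Real.pi := by
    have h3 : √Real.pi ^ 2 = Real.pi := Real.sq_sqrt Real.pi_pos.le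
    calc √Real.pi ^ 21 = (√Real.pi ^ 2) ^ 10 * √Real.pi := by ring
      _ = _ := by rw [h3]
  rw [h2]
  field_simp

/-- **NU22** from a bound `δ` for the density of the lattice packings of `ℝ^21` -/
theorem nu22 (δ : ℝ) (hδ : 0 < δ)
    (H : ∀ M : AddSubgroup (V 21), (M : Set (V 21)).Pairwise (fun x y => 2 ≤ dist x y) →
      Filter.limsup (fun R : ℝ => volume ((⋃ x ∈ (M : Set (V 21)), Metric.ball x 1) ∩
        Metric.ball (0 : V 21) R) / volume (Metric.ball (0 : V 21) R)) atTop ≤ ENNReal.ofReal δ)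
    (κ μ ν : ℝ) (hμ : 0 < μ) (hκ : 0 < κ)
    (hnum : ν * (δ ^ 2 * 13749310575 ^ 2 * κ ^ 2) ≤ 4 * (μ / 4) ^ 21)
    (b b' : Fin 22 → V 22) (hdu : Du κ b b') (hmu : Mu μ b) : Mu ν b' := by
  have hπ := Real.pi_pos
  set v : ℝ := Real.pi ^ 10 * 2 ^ 11 / 13749310575 with hv
  have hv0 : 0 < v := by positivity
  have h1 := dmn 21 (by norm_num) (δ / v) (by positivity) (by
    intro M hM
    refine (H M hM).trans (le_of_eq ?_)
    rw [vol21, ← ENNReal.ofReal_mul (by positivity)]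
    congr 1
    rw [← hv]
    field_simp) κ μ hμ b b' hdu hmu
  intro c hc
  refine le_trans ?_ (h1 c hc)
  rw [le_div_iff₀ (by positivity)]
  have e1 : ν * ((δ / v) ^ 2 * (κ ^ 2 * (2 * Real.pi) ^ (21 + 1))) =
      ν * (δ ^ 2 * 13749310575 ^ 2 * κ ^ 2) * Real.pi ^ 2 := by
    rw [hv]
    field_simp
    ring
  rw [e1]
  calc ν * (δ ^ 2 * 13749310575 ^ 2 * κ ^ 2) * Real.pi ^ 2 ≤ 4 * (μ / 4) ^ 21 * Real.pi ^ 2 :=
        mul_le_mul_of_nonneg_right hnum (by positivity)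
    _ = (μ / 4) ^ 21 * (2 * Real.pi) ^ 2 := by ring

/-- the numbers: `κ = 25/22`, `μ = 23`, `ν = 6`, `δ = .00495` -/
example : (6 : ℝ) * ((0.00495 : ℝ) ^ 2 * 13749310575 ^ 2 * (25 / 22) ^ 2) ≤ 4 * (23 / 4) ^ 21 := by
  norm_num

end Pool.Agent.LPK.H84
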